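import Pool.Agent.Helper626.PosetAlg.Greedy

/-!
# Well generated set algebras

`Noeth H`: every sequence of members of `H` has a member containing the intersection of the
earlier ones. A set algebra is called well generated (`WG`) if it is generated by a `Noeth` family.
The lattice generated by a `Noeth` family has no infinite strictly decreasing sequence.
-/

set_option autoImplicit false

namespace Pool.Agent.H197WG

open Set

/-- every sequence has a member containing the intersection of the earlier ones -/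
def Noeth {X : Type} (H : Set (Set X)) : Prop :=
  ∀ h : ℕ → Set X, (∀ n, h n ∈ H) → ∃ n, ∀ v, (∀ i ≤ n, v ∈ h i) → v ∈ h (n + 1)

/-- the Boolean algebra of sets generated by `E` -/
abbrev cl {X : Type} (E : Set (Set X)) : BooleanSubalgebra (Set X) := BooleanSubalgebra.closure E

theorem cl_base {X : Type} {E : Set (Set X)} {e : Set X} (h : e ∈ E) : e ∈ cl E :=
  BooleanSubalgebra.subset_closure h

theorem cl_union {X : Type} {E : Set (Set X)} {x y : Set X} (hx : x ∈ cl E) (hy : y ∈ cl E) :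
    x ∪ y ∈ cl E := BooleanSubalgebra.sup_mem hx hy

theorem cl_inter {X : Type} {E : Set (Set X)} {x y : Set X} (hx : x ∈ cl E) (hy : y ∈ cl E) :
    x ∩ y ∈ cl E := BooleanSubalgebra.inf_mem hx hy

theorem cl_compl {X : Type} {E : Set (Set X)} {x : Set X} (hx : x ∈ cl E) :
    xᶜ ∈ cl E := BooleanSubalgebra.compl_mem hx

theorem cl_diff {X : Type} {E : Set (Set X)} {x y : Set X} (hx : x ∈ cl E) (hy : y ∈ cl E) :
    x \ y ∈ cl E := BooleanSubalgebra.sdiff_mem hx hy

theorem cl_empty {X : Type} {E : Set (Set X)} : (∅ : Set X) ∈ cl E := BooleanSubalgebra.bot_mem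

theorem cl_univ {X : Type} {E : Set (Set X)} : (Set.univ : Set X) ∈ cl E := BooleanSubalgebra.top_mem

theorem cl_const {X : Type} {E : Set (Set X)} (c : Prop) : {_v : X | c} ∈ cl E := by
  by_cases h : c
  · simpa [h] using cl_univ
  · simpa [h] using cl_empty

theorem cl_le {X : Type} {E E' : Set (Set X)} (h : ∀ e ∈ E, e ∈ cl E') : ∀ z ∈ cl E, z ∈ cl E' := by
  have : cl E ≤ cl E' := by
    rw [BooleanSubalgebra.closure_le]
    exact h
  exact this

theorem cl_preimage {X Y : Type} {E : Set (Set X)} (f : Y → X) {z : Set X} (hz : z ∈ cl E) :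
    f ⁻¹' z ∈ cl (preimage f '' E) := by
  induction hz using BooleanSubalgebra.closure_bot_sup_induction with
  | mem x hx => exact cl_base ⟨x, hx, rfl⟩
  | bot => exact cl_empty
  | sup x _ y _ ihx ihy => exact cl_union ihx ihy
  | compl x _ ih => exact cl_compl ih

/-- trace of the family `E` on `w` -/
def Ew {X : Type} (E : Set (Set X)) (w : Set X) : Set (Set X) :=
  insert w ((fun e => e ∩ w) '' E)

theorem cl_trace {X : Type} {E : Set (Set X)} (w : Set X) {z : Set X} (hz : z ∈ cl E) :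
    z ∩ w ∈ cl (Ew E w) := by
  induction hz using BooleanSubalgebra.closure_bot_sup_induction with
  | mem x hx => exact cl_base (Or.inr ⟨x, hx, rfl⟩)
  | bot =>
    have : (⊥ : Set X) ∩ w = ∅ := by simp
    rw [this]
    exact cl_empty
  | sup x _ y _ ihx ihy =>
    have : (x ⊔ y) ∩ w = (x ∩ w) ∪ (y ∩ w) := by
      exact Set.union_inter_distrib_right x y w
    rw [this]
    exact cl_union ihx ihy
  | compl x _ ih =>
    have : xᶜ ∩ w = w \ (x ∩ w) := by
      ext v
      constructor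
      · rintro ⟨h1, h2⟩
        exact ⟨h2, fun h => h1 h.1⟩
      · rintro ⟨h1, h2⟩
        exact ⟨fun h => h2 ⟨h, h1⟩, h1⟩
    rw [this]
    exact cl_diff (cl_base (Or.inl rfl)) ih

/-! ### Noetherian families -/

theorem noeth_of_sub {X : Type} (h : ℕ → Set X) (φ : ℕ → ℕ) (hφ : StrictMono φ) (N : ℕ)
    (hN : ∀ v, (∀ i ≤ N, v ∈ h (φ i)) → v ∈ h (φ (N + 1))) :
    ∃ n, ∀ v, (∀ i ≤ n, v ∈ h i) → v ∈ h (n + 1) := by
  have h1 : φ N < φ (N + 1) := hφ (Nat.lt_succ_self N)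
  obtain ⟨k, hk⟩ : ∃ k, φ (N + 1) = k + 1 := ⟨φ (N + 1) - 1, by omega⟩
  refine ⟨k, fun v hv => ?_⟩
  rw [← hk]
  apply hN v
  intro i hi
  apply hv
  have : φ i ≤ φ N := hφ.monotone hi
  omega

theorem noeth_union {X : Type} {H₁ H₂ : Set (Set X)} (h1 : Noeth H₁) (h2 : Noeth H₂) :
    Noeth (H₁ ∪ H₂) := by
  intro h hh
  have : (∃ᶠ n in Filter.atTop, h n ∈ H₁) ∨ ∃ᶠ n in Filter.atTop, h n ∈ H₂ := by
    rw [← Filter.frequently_or_distrib]
    exact (Filter.Eventually.of_forall hh).frequently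
  rcases this with h' | h'
  · obtain ⟨φ, hφ, hm⟩ := Filter.extraction_of_frequently_atTop h'
    obtain ⟨N, hN⟩ := h1 (fun n => h (φ n)) hm
    exact noeth_of_sub h φ hφ N hN
  · obtain ⟨φ, hφ, hm⟩ := Filter.extraction_of_frequently_atTop h'
    obtain ⟨N, hN⟩ := h2 (fun n => h (φ n)) hm
    exact noeth_of_sub h φ hφ N hN

theorem noeth_singleton {X : Type} (y : Set X) : Noeth ({y} : Set (Set X)) := by
  intro h hh
  refine ⟨0, fun v hv => ?_⟩
  have h0 : h 0 = y := hh 0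
  have h1 : h (0 + 1) = y := hh 1
  rw [h1, ← h0]
  exact hv 0 le_rfl

theorem noeth_mono {X : Type} {H₁ H₂ : Set (Set X)} (h : H₁ ⊆ H₂) (h2 : Noeth H₂) : Noeth H₁ :=
  fun g hg => h2 g (fun n => h (hg n))

theorem noeth_insert {X : Type} {H : Set (Set X)} (y : Set X) (hH : Noeth H) :
    Noeth (insert y H) := by
  refine noeth_mono ?_ (noeth_union (noeth_singleton y) hH)
  rintro z (rfl | hz)
  · exact Or.inl rfl
  · exact Or.inr hz

/-- pull back along `f` and cut down to `a` -/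
theorem noeth_cut {X Y : Type} {H : Set (Set X)} (f : Y → X) (a : Set Y) (hH : Noeth H) :
    Noeth {t : Set Y | ∃ g ∈ H, t = {v | v ∈ a ∧ f v ∈ g}} := by
  intro h hh
  choose g hg1 hg2 using hh
  obtain ⟨n, hn⟩ := hH g hg1
  refine ⟨n, fun v hv => ?_⟩
  rw [hg2 (n + 1)]
  refine ⟨?_, hn (f v) ?_⟩
  · have := hv 0 (Nat.zero_le _)
    rw [hg2 0] at this
    exact this.1
  · intro i hi
    have := hv i hi
    rw [hg2 i] at this
    exact this.2

/-! ### Well generated families -/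

/-- the algebra generated by `E` is generated by a `Noeth` family -/
def WG {X : Type} (E : Set (Set X)) : Prop :=
  ∃ H : Set (Set X), Noeth H ∧ (∀ h ∈ H, h ∈ cl E) ∧ ∀ e ∈ E, e ∈ cl H

theorem WG.congr {X : Type} {E E' : Set (Set X)} (h : WG E) (h1 : ∀ e ∈ E, e ∈ cl E')
    (h2 : ∀ e ∈ E', e ∈ cl E) : WG E' := by
  obtain ⟨H, hN, ha, hb⟩ := h
  exact ⟨H, hN, fun h hh => cl_le h1 h (ha h hh), fun e he => cl_le hb e (h2 e he)⟩

theorem WG.pull {X Y : Type} {E : Set (Set X)} (h : WG E) (f : Y → X) : WG (preimage f '' E) := by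
  obtain ⟨H, hN, ha, hb⟩ := h
  refine ⟨preimage f '' H, ?_, ?_, ?_⟩
  · refine noeth_mono ?_ (noeth_cut f Set.univ hN)
    rintro _ ⟨g, hg, rfl⟩
    refine ⟨g, hg, ?_⟩
    ext v
    simp
  · rintro _ ⟨g, hg, rfl⟩
    exact cl_preimage f (ha g hg)
  · rintro _ ⟨e, he, rfl⟩
    exact cl_preimage f (hb e he)

theorem WG.join {X : Type} {E₁ E₂ : Set (Set X)} (h1 : WG E₁) (h2 : WG E₂) : WG (E₁ ∪ E₂) := by
  obtain ⟨H₁, hN₁, ha₁, hb₁⟩ := h1
  obtain ⟨H₂, hN₂, ha₂, hb₂⟩ := h2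
  refine ⟨H₁ ∪ H₂, noeth_union hN₁ hN₂, ?_, ?_⟩
  · rintro h (hh | hh)
    · exact cl_le (fun e he => cl_base (Or.inl he)) h (ha₁ h hh)
    · exact cl_le (fun e he => cl_base (Or.inr he)) h (ha₂ h hh)
  · rintro e (he | he)
    · exact cl_le (fun e he => cl_base (Or.inl he)) e (hb₁ e he)
    · exact cl_le (fun e he => cl_base (Or.inr he)) e (hb₂ e he)

theorem WG.trace {X : Type} {E : Set (Set X)} (h : WG E) (w : Set X) : WG (Ew E w) := by
  obtain ⟨H, hN, ha, hb⟩ := h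
  refine ⟨Ew H w, ?_, ?_, ?_⟩
  · refine noeth_insert w (noeth_mono ?_ (noeth_cut id w hN))
    rintro _ ⟨g, hg, rfl⟩
    refine ⟨g, hg, ?_⟩
    ext v
    exact and_comm
  · rintro h (rfl | ⟨g, hg, rfl⟩)
    · exact cl_base (Or.inl rfl)
    · exact cl_trace w (ha g hg)
  · rintro h (rfl | ⟨g, hg, rfl⟩)
    · exact cl_base (Or.inl rfl)
    · exact cl_trace w (hb g hg)

theorem wgx_mono {X : Type} {E : Set (Set X)} {x y : Set X} (hyx : y ⊆ x) (h : WG (Ew E x)) :
    WG (Ew E y) := by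
  have hxy : x ∩ y = y := inter_eq_right.2 hyx
  have h3 : ∀ e : Set X, (e ∩ x) ∩ y = e ∩ y := by
    intro e
    rw [inter_assoc, hxy]
  refine (h.trace y).congr ?_ ?_
  · rintro _ (rfl | ⟨_, (rfl | ⟨e, he, rfl⟩), rfl⟩)
    · exact cl_base (Or.inl rfl)
    · refine cl_base (Or.inl ?_)
      exact hxy
    · show (e ∩ x) ∩ y ∈ _
      rw [h3]
      exact cl_base (Or.inr ⟨e, he, rfl⟩)
  · rintro _ (rfl | ⟨e, he, rfl⟩)
    · exact cl_base (Or.inl rfl)
    · refine cl_base (Or.inr ⟨e ∩ x, Or.inr ⟨e, he, rfl⟩, ?_⟩)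
      exact h3 e

theorem wgx_empty {X : Type} {E : Set (Set X)} : WG (Ew E ∅) := by
  refine ⟨∅, ?_, by simp, ?_⟩
  · intro h hh
    exact absurd (hh 0) (by simp)
  · rintro _ (rfl | ⟨e, he, rfl⟩)
    · exact cl_empty
    · show e ∩ ∅ ∈ _
      rw [inter_empty]
      exact cl_empty

theorem wgx_union {X : Type} {E : Set (Set X)} {x y : Set X} (hxE : x ∈ cl E) (hyE : y ∈ cl E)
    (hx : WG (Ew E x)) (hy : WG (Ew E y)) : WG (Ew E (x ∪ y)) := by
  have hx' : x ∩ (x ∪ y) = x := inter_eq_left.2 subset_union_left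
  have hy' : y ∩ (x ∪ y) = y := inter_eq_left.2 subset_union_right
  have hx1 : x ∈ cl (Ew E (x ∪ y)) := by
    have := cl_trace (x ∪ y) hxE
    rwa [hx'] at this
  have hy1 : y ∈ cl (Ew E (x ∪ y)) := by
    have := cl_trace (x ∪ y) hyE
    rwa [hy'] at this
  refine (hx.join hy).congr ?_ ?_
  · rintro _ ((rfl | ⟨e, he, rfl⟩) | (rfl | ⟨e, he, rfl⟩))
    · exact hx1
    · show e ∩ x ∈ _
      have : e ∩ x = (e ∩ (x ∪ y)) ∩ x := by
        rw [inter_assoc, union_inter_cancel_left]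
      rw [this]
      exact cl_inter (cl_base (Or.inr ⟨e, he, rfl⟩)) hx1
    · exact hy1
    · show e ∩ y ∈ _
      have : e ∩ y = (e ∩ (x ∪ y)) ∩ y := by
        rw [inter_assoc, union_inter_cancel_right]
      rw [this]
      exact cl_inter (cl_base (Or.inr ⟨e, he, rfl⟩)) hy1
  · rintro _ (rfl | ⟨e, he, rfl⟩)
    · exact cl_union (cl_base (Or.inl (Or.inl rfl))) (cl_base (Or.inr (Or.inl rfl)))
    · show e ∩ (x ∪ y) ∈ _
      rw [inter_union_distrib_left]
      exact cl_union (cl_base (Or.inl (Or.inr ⟨e, he, rfl⟩))) (cl_base (Or.inr (Or.inr ⟨e, he, rfl⟩)))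

theorem wgx_univ {X : Type} {E : Set (Set X)} (h : WG (Ew E Set.univ)) : WG E := by
  refine h.congr ?_ ?_
  · rintro _ (rfl | ⟨e, he, rfl⟩)
    · exact cl_univ
    · show e ∩ Set.univ ∈ _
      rw [inter_univ]
      exact cl_base he
  · intro e he
    exact cl_base (Or.inr ⟨e, he, inter_univ e⟩)

/-! ### The generated lattice is well founded -/

/-- the lattice of sets generated by `H` -/
inductive LC {X : Type} (H : Set (Set X)) : Set X → Prop
  | base (h : Set X) (hh : h ∈ H) : LC H h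
  | union (x y : Set X) (hx : LC H x) (hy : LC H y) : LC H (x ∪ y)
  | inter (x y : Set X) (hx : LC H x) (hy : LC H y) : LC H (x ∩ y)

theorem lc_wf {X : Type} {H : Set (Set X)} (hH : Noeth H) :
    ¬ ∃ f : ℕ → Set X, ∀ n, LC H (f n) ∧ f (n + 1) ⊂ f n := by
  classical
  rintro ⟨f, hf⟩
  have hz : ∀ n, ∃ z, z ∈ f n ∧ z ∉ f (n + 1) := by
    intro n
    exact Set.exists_of_ssubset (hf n).2
  choose z hz1 hz2 using hz
  have hanti : Antitone f := antitone_nat_of_succ_le (fun n => (hf n).2.subset)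
  let 𝒰 : Ultrafilter ℕ := Filter.hyperfilter ℕ
  have h𝒰 : ∀ k, ∀ᶠ n in (𝒰 : Filter ℕ), z n ∈ f k := by
    intro k
    have h1 : ∀ᶠ n in Filter.atTop, z n ∈ f k :=
      (Filter.eventually_ge_atTop k).mono (fun n hn => hanti hn (hz1 n))
    rw [← Nat.cofinite_eq_atTop] at h1
    exact Filter.hyperfilter_le_cofinite h1
  -- the least element
  have hm : ∃ m : Set X, (∀ᶠ n in (𝒰 : Filter ℕ), z n ∈ m) ∧
      ∀ h ∈ H, (∀ᶠ n in (𝒰 : Filter ℕ), z n ∈ h) → m ⊆ h := by
    by_contra hno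
    push Not at hno
    have hex : ∀ m : {m : Set X // ∀ᶠ n in (𝒰 : Filter ℕ), z n ∈ m},
        ∃ h, h ∈ H ∧ (∀ᶠ n in (𝒰 : Filter ℕ), z n ∈ h) ∧ ¬ m.1 ⊆ h := by
      intro m
      obtain ⟨h, h1, h2, h3⟩ := hno m.1 m.2
      exact ⟨h, h1, h2, h3⟩
    choose g hg1 hg2 hg3 using hex
    let ms : ℕ → {m : Set X // ∀ᶠ n in (𝒰 : Filter ℕ), z n ∈ m} := fun k =>
      Nat.rec ⟨Set.univ, Filter.Eventually.of_forall (fun _ => trivial)⟩
        (fun _ m => ⟨m.1 ∩ g m, m.2.and (hg2 m)⟩) k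
    have hms : ∀ k, (ms (k + 1)).1 = (ms k).1 ∩ g (ms k) := fun k => rfl
    have hanti' : Antitone (fun k => (ms k).1) :=
      antitone_nat_of_succ_le (fun k => by
        show (ms (k + 1)).1 ⊆ (ms k).1
        rw [hms]
        exact inter_subset_left)
    obtain ⟨n, hn⟩ := hH (fun k => g (ms k)) (fun k => hg1 _)
    apply hg3 (ms (n + 1))
    intro v hv
    apply hn v
    intro i hi
    have h1 : v ∈ (ms (i + 1)).1 := hanti' (Nat.succ_le_succ hi) hv
    rw [hms] at h1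
    exact h1.2
  obtain ⟨m, hm1, hm2⟩ := hm
  have hm3 : ∀ x, LC H x → (∀ᶠ n in (𝒰 : Filter ℕ), z n ∈ x) → m ⊆ x := by
    intro x hx
    induction hx with
    | base h hh => exact hm2 h hh
    | union x y _ _ ihx ihy =>
      intro h
      have : (∀ᶠ n in (𝒰 : Filter ℕ), z n ∈ x) ∨ ∀ᶠ n in (𝒰 : Filter ℕ), z n ∈ y := by
        rw [← Ultrafilter.eventually_or]
        exact h
      rcases this with h' | h'
      · exact (ihx h').trans subset_union_left
      · exact (ihy h').trans subset_union_right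
    | inter x y _ _ ihx ihy =>
      intro h
      exact subset_inter (ihx (h.mono fun n hn => hn.1)) (ihy (h.mono fun n hn => hn.2))
  obtain ⟨n, hn⟩ := hm1.exists
  exact hz2 n (hm3 (f (n + 1)) (hf (n + 1)).1 (h𝒰 (n + 1)) hn)

theorem lc_cl {X : Type} {H : Set (Set X)} {x : Set X} (hx : LC H x) : x ∈ cl H := by
  induction hx with
  | base h hh => exact cl_base hh
  | union x y _ _ ihx ihy => exact cl_union ihx ihy
  | inter x y _ _ ihx ihy => exact cl_inter ihx ihy

end Pool.Agent.H197WG
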