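import Pool.Agent.Helper197.WellGen.Poset

/-!
# Superatomic poset algebras are well generated
-/

set_option autoImplicit false

namespace Pool.Agent.H197WG

open Set Pool.Agent.Helper626.PosetAlg

/-- complement: relative upper sets of the dual order -/
theorem gens_dual {P : Type} [Preorder P] {S : Set P}
    (h : WG (gens (P := Pᵒᵈ) (OrderDual.ofDual ⁻¹' S))) : WG (gens S) := by
  classical
  let f : RUS S → RUS (P := Pᵒᵈ) (OrderDual.ofDual ⁻¹' S) := fun V =>
    ⟨{p | OrderDual.ofDual p ∈ S ∧ OrderDual.ofDual p ∉ V.1}, by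
      refine ⟨fun p hp => hp.1, ?_⟩
      rintro p ⟨hp, hpV⟩ q hq hpq
      refine ⟨hq, fun hqV => hpV ?_⟩
      exact V.2.2 _ hqV _ hp hpq⟩
  refine (h.pull f).congr ?_ ?_
  · rintro _ ⟨_, ⟨p, rfl⟩, rfl⟩
    have : f ⁻¹' gn _ p = {_V | OrderDual.ofDual p ∈ S} ∩ (gn S (OrderDual.ofDual p))ᶜ := by
      ext V
      exact Iff.rfl
    rw [this]
    exact cl_inter (cl_const _) (cl_compl (gn_mem S _))
  · rintro _ ⟨p, rfl⟩
    have : gn S p = {_V | p ∈ S} ∩ (f ⁻¹' gn _ (OrderDual.toDual p))ᶜ := by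
      ext V
      constructor
      · intro h
        exact ⟨V.2.1 h, fun h' => h'.2 h⟩
      · rintro ⟨h1, h2⟩
        by_contra h3
        exact h2 ⟨h1, h3⟩
    rw [this]
    exact cl_inter (cl_const _) (cl_compl (cl_base ⟨_, ⟨_, rfl⟩, rfl⟩))

theorem gens_dual' {P : Type} [Preorder P] {S : Set P}
    (h : WG (gens S)) : WG (gens (P := Pᵒᵈ) (OrderDual.ofDual ⁻¹' S)) := by
  classical
  let f : RUS (P := Pᵒᵈ) (OrderDual.ofDual ⁻¹' S) → RUS S := fun V =>
    ⟨{p | p ∈ S ∧ OrderDual.toDual p ∉ V.1}, by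
      refine ⟨fun p hp => hp.1, ?_⟩
      rintro p ⟨hp, hpV⟩ q hq hpq
      refine ⟨hq, fun hqV => hpV ?_⟩
      exact V.2.2 _ hqV _ hp hpq⟩
  refine (h.pull f).congr ?_ ?_
  · rintro _ ⟨_, ⟨p, rfl⟩, rfl⟩
    have : f ⁻¹' gn _ p = {_V | p ∈ S} ∩
        (gn (P := Pᵒᵈ) (OrderDual.ofDual ⁻¹' S) (OrderDual.toDual p))ᶜ := by
      ext V
      exact Iff.rfl
    rw [this]
    exact cl_inter (cl_const _) (cl_compl (gn_mem _ _))
  · rintro _ ⟨p, rfl⟩
    have : gn (P := Pᵒᵈ) (OrderDual.ofDual ⁻¹' S) p =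
        {_V | OrderDual.ofDual p ∈ S} ∩ (f ⁻¹' gn _ (OrderDual.ofDual p))ᶜ := by
      ext V
      constructor
      · intro h
        exact ⟨V.2.1 h, fun h' => h'.2 h⟩
      · rintro ⟨h1, h2⟩
        by_contra h3
        exact h2 ⟨h1, h3⟩
    rw [this]
    exact cl_inter (cl_const _) (cl_compl (cl_base ⟨_, ⟨_, rfl⟩, rfl⟩))

/-- the generators of the poset algebra -/
def ug (P : Type) [Preorder P] : Set (Set (UpperSet P)) :=
  Set.range fun a : P => {U : UpperSet P | a ∈ U}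

theorem wg_of_sa {P : Type} [PartialOrder P] (hsa : SA P) : WG (ug P) := by
  classical
  have hfac := fac_of_sa hsa
  apply wgx_univ
  by_contra hcov
  obtain ⟨a, haF, _, haI, hat⟩ := hsa {x | x ∈ F P ∧ WG (Ew (ug P) x)} (fun x hx => hx.1)
    ⟨empty_mem', wgx_empty⟩
    (fun x hx y hy => ⟨union_mem hx.1 hy.1, wgx_union hx.1 hy.1 hx.2 hy.2⟩)
    (fun x hx y hy hyx => ⟨hy, wgx_mono hyx hx.2⟩) Set.univ univ_mem' (fun h => hcov h.2)
  have haC : ¬ WG (Ew (ug P) a) := fun h => haI ⟨haF, h⟩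
  -- finite support
  have hsupp : ∀ y ∈ F P, ∃ N : Finset P, ∀ U U' : UpperSet P, (∀ n ∈ N, n ∈ U ↔ n ∈ U') →
      (U ∈ y ↔ U' ∈ y) := by
    intro y hy
    induction hy using BooleanSubalgebra.closure_bot_sup_induction with
    | mem x hx =>
      obtain ⟨n, rfl⟩ := hx
      exact ⟨{n}, fun U U' h => h n (Finset.mem_singleton_self n)⟩
    | bot => exact ⟨∅, fun U U' _ => Iff.rfl⟩
    | sup x _ y _ ihx ihy =>
      obtain ⟨N, hN⟩ := ihx
      obtain ⟨M, hM⟩ := ihy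
      refine ⟨N ∪ M, fun U U' h => ?_⟩
      have h1 := hN U U' (fun n hn => h n (Finset.mem_union_left _ hn))
      have h2 := hM U U' (fun n hn => h n (Finset.mem_union_right _ hn))
      exact or_congr h1 h2
    | compl x _ ih =>
      obtain ⟨N, hN⟩ := ih
      exact ⟨N, fun U U' h => not_congr (hN U U' h)⟩
  obtain ⟨N, hN⟩ := hsupp a haF
  let bs : Finset P → Finset P → Set (UpperSet P) := fun Q T =>
    {V | (∀ q ∈ Q, q ∈ V) ∧ ∀ t ∈ T, t ∉ V}
  have hbsF : ∀ Q T, bs Q T ∈ F P := by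
    intro Q T
    exact and_mem (forall_finset_mem Q (fun q V => q ∈ V) (fun q _ => gen_mem q))
      (forall_finset_mem T (fun t V => t ∉ V) (fun t _ => not_mem' (gen_mem t)))
  have hbig : ∀ (s : Finset (Finset P)) (g : Finset P → Set (UpperSet P)),
      (∀ i ∈ s, g i ∈ F P ∧ WG (Ew (ug P) (g i))) →
      {V | ∃ i ∈ s, V ∈ g i} ∈ F P ∧ WG (Ew (ug P) {V | ∃ i ∈ s, V ∈ g i}) := by
    intro s g
    induction s using Finset.induction_on with
    | empty =>
      intro _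
      have : {V : UpperSet P | ∃ i ∈ (∅ : Finset (Finset P)), V ∈ g i} = ∅ := by
        ext V; simp
      rw [this]
      exact ⟨empty_mem', wgx_empty⟩
    | insert a s ha ih =>
      intro hg
      have h1 := hg a (Finset.mem_insert_self a s)
      have h2 := ih (fun i hi => hg i (Finset.mem_insert_of_mem hi))
      have : {V : UpperSet P | ∃ i ∈ insert a s, V ∈ g i} = g a ∪ {V | ∃ i ∈ s, V ∈ g i} := by
        ext V; simp
      rw [this]
      exact ⟨union_mem h1.1 h2.1, wgx_union h1.1 h2.1 h1.2 h2.2⟩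
  have hex : ∃ Q T : Finset P, bs Q T ⊆ a ∧ ¬ WG (Ew (ug P) (bs Q T)) := by
    by_contra hno
    push Not at hno
    apply haC
    refine wgx_mono ?_ (hbig (N.powerset.filter (fun Q => bs Q (N \ Q) ⊆ a))
      (fun Q => bs Q (N \ Q)) (fun Q hQ => ⟨hbsF _ _, hno Q (N \ Q) (Finset.mem_filter.1 hQ).2⟩)).2
    intro V hV
    refine ⟨N.filter (fun n => n ∈ V), ?_, ?_, ?_⟩
    · rw [Finset.mem_filter, Finset.mem_powerset]
      refine ⟨Finset.filter_subset _ _, ?_⟩
      intro V' hV'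
      refine (hN V V' ?_).1 hV
      intro n hn
      constructor
      · intro h
        exact hV'.1 n (Finset.mem_filter.2 ⟨hn, h⟩)
      · intro h
        by_contra hnV
        refine hV'.2 n ?_ h
        rw [Finset.mem_sdiff]
        exact ⟨hn, fun h' => hnV (Finset.mem_filter.1 h').2⟩
    · intro q hq
      exact (Finset.mem_filter.1 hq).2
    · intro t ht htV
      rw [Finset.mem_sdiff] at ht
      exact ht.2 (Finset.mem_filter.2 ⟨ht.1, htV⟩)
  obtain ⟨Q, T, hba, hbC⟩ := hex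
  set b := bs Q T with hb
  have hbF : b ∈ F P := hbsF Q T
  have hbat : ∀ c ∈ F P, c ⊆ b → WG (Ew (ug P) c) ∨ WG (Ew (ug P) (b \ c)) := by
    intro c hc hcb
    rcases hat c hc (hcb.trans hba) with h | h
    · exact Or.inl h.2
    · exact Or.inr (wgx_mono (by intro z hz; exact ⟨hba hz.1, hz.2⟩) h.2)
  let U₀ : UpperSet P := ⟨{p | ¬ WG (Ew (ug P) (b ∩ {U | p ∈ U}))}, by
    intro p q hpq hp hq
    exact hp (wgx_mono (by intro U hU; exact ⟨hU.1, U.upper hpq hU.2⟩) hq)⟩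
  have hU₀1 : ∀ p ∈ U₀, WG (Ew (ug P) (b \ {U | p ∈ U})) := by
    intro p hp
    rcases hbat (b ∩ {U | p ∈ U}) (inter_mem' hbF (gen_mem p)) inter_subset_left with h | h
    · exact absurd h hp
    · exact wgx_mono (by intro z hz; exact ⟨hz.1, fun h' => hz.2 h'.2⟩) h
  have hU₀2 : ∀ p, p ∉ U₀ → WG (Ew (ug P) (b ∩ {U | p ∈ U})) := by
    intro p hp
    by_contra h
    exact hp h
  have hQ : ∀ q ∈ Q, q ∈ U₀ := by
    intro q hq h
    exact hbC (wgx_mono (by intro z hz; exact ⟨hz, hz.1 q hq⟩) h)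
  have hT : ∀ t ∈ T, t ∉ U₀ := by
    intro t ht h
    apply h
    refine wgx_mono (x := ∅) ?_ wgx_empty
    intro z hz
    exact hz.1.2 t ht hz.2
  let D : Set P := {d | d ∉ U₀ ∧ ∀ t ∈ T, ¬ d ≤ t}
  let U : Set P := {u | u ∈ U₀ ∧ ∀ q ∈ Q, ¬ q ≤ u}
  -- the part below
  have hD : WG (gens D) := by
    refine caseW hfac D ?_
    intro d hd
    have h0 := hU₀2 d hd.1
    let f : RUS (D \ {x | d ≤ x}) → UpperSet P := fun V =>
      ⟨{p | p ∈ V.1 ∨ (p ∈ U₀ ∨ d ≤ p)}, by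
        rintro p q hpq hp
        rcases hp with hp | hp | hp
        · by_cases hqD : q ∈ D \ {x | d ≤ x}
          · exact Or.inl (V.2.2 p hp q hqD hpq)
          · right
            by_contra hq
            push Not at hq
            apply hqD
            refine ⟨⟨hq.1, ?_⟩, hq.2⟩
            intro t ht hqt
            exact (V.2.1 hp).1.2 t ht (hpq.trans hqt)
        · exact Or.inr (Or.inl (U₀.upper hpq hp))
        · exact Or.inr (Or.inr (hp.trans hpq))⟩
    have hfb : ∀ V, f V ∈ b ∩ {U | d ∈ U} := by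
      intro V
      refine ⟨⟨?_, ?_⟩, ?_⟩
      · intro q hq
        exact Or.inr (Or.inl (hQ q hq))
      · rintro t ht (h | h | h)
        · exact (V.2.1 h).1.2 t ht le_rfl
        · exact hT t ht h
        · exact hd.2 t ht h
      · exact Or.inr (Or.inr le_rfl)
    refine (h0.pull f).congr ?_ ?_
    · rintro _ ⟨_, (rfl | ⟨_, ⟨p, rfl⟩, rfl⟩), rfl⟩
      · have : f ⁻¹' (b ∩ {U | d ∈ U}) = Set.univ := by
          ext V
          exact ⟨fun _ => trivial, fun _ => hfb V⟩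
        rw [this]
        exact cl_univ
      · have : f ⁻¹' ({U : UpperSet P | p ∈ U} ∩ (b ∩ {U | d ∈ U})) =
            gn _ p ∪ {_V | p ∈ U₀ ∨ d ≤ p} := by
          ext V
          constructor
          · rintro ⟨h1, _⟩
            exact h1
          · intro h1
            exact ⟨h1, hfb V⟩
        show f ⁻¹' ({U : UpperSet P | p ∈ U} ∩ (b ∩ {U | d ∈ U})) ∈ _
        rw [this]
        exact cl_union (gn_mem _ p) (cl_const _)
    · rintro _ ⟨p, rfl⟩
      have : gn (D \ {x | d ≤ x}) p = {_V | p ∈ D \ {x | d ≤ x}} ∩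
          f ⁻¹' ({U : UpperSet P | p ∈ U} ∩ (b ∩ {U | d ∈ U})) := by
        ext V
        constructor
        · intro h
          exact ⟨V.2.1 h, Or.inl h, hfb V⟩
        · rintro ⟨h1, h2 | h2 | h2, _⟩
          · exact h2
          · exact absurd h2 h1.1.1
          · exact absurd h2 h1.2
      rw [this]
      exact cl_inter (cl_const _) (cl_base ⟨_, Or.inr ⟨_, ⟨p, rfl⟩, rfl⟩, rfl⟩)
  -- the part above
  have hU : WG (gens U) := by
    refine gens_dual (caseW hfac.dual (OrderDual.ofDual ⁻¹' U) ?_)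
    intro u' hu'
    have hu : OrderDual.ofDual u' ∈ U := hu'
    set u : P := OrderDual.ofDual u' with hudef
    refine gens_dual' (S := U \ {x | x ≤ u}) ?_
    have h0 := hU₀1 u hu.1
    let f : RUS (U \ {x | x ≤ u}) → UpperSet P := fun V =>
      ⟨{p | p ∈ U₀ ∧ ¬ p ≤ u ∧ (p ∈ U \ {x | x ≤ u} → p ∈ V.1)}, by
        rintro p q hpq ⟨h1, h2, h3⟩
        refine ⟨U₀.upper hpq h1, fun h => h2 (hpq.trans h), ?_⟩
        intro hq
        have hp : p ∈ U \ {x | x ≤ u} := ⟨⟨h1, fun r hr h => hq.1.2 r hr (h.trans hpq)⟩, h2⟩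
        exact V.2.2 p (h3 hp) q hq hpq⟩
    have hfb : ∀ V, f V ∈ b \ {U | u ∈ U} := by
      intro V
      refine ⟨⟨?_, ?_⟩, ?_⟩
      · intro q hq
        exact ⟨hQ q hq, hu.2 q hq, fun h => absurd le_rfl (h.1.2 q hq)⟩
      · intro t ht h
        exact hT t ht h.1
      · intro h
        exact h.2.1 le_rfl
    refine (h0.pull f).congr ?_ ?_
    · rintro _ ⟨_, (rfl | ⟨_, ⟨p, rfl⟩, rfl⟩), rfl⟩
      · have : f ⁻¹' (b \ {U | u ∈ U}) = Set.univ := by
          ext V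
          exact ⟨fun _ => trivial, fun _ => hfb V⟩
        rw [this]
        exact cl_univ
      · have : f ⁻¹' ({U : UpperSet P | p ∈ U} ∩ (b \ {U | u ∈ U})) =
            {_V | p ∈ U₀ ∧ ¬ p ≤ u} ∩ (gn _ p ∪ {_V | p ∉ U \ {x | x ≤ u}}) := by
          ext V
          constructor
          · rintro ⟨⟨h1, h2, h3⟩, _⟩
            refine ⟨⟨h1, h2⟩, ?_⟩
            by_cases hp : p ∈ U \ {x | x ≤ u}
            · exact Or.inl (h3 hp)
            · exact Or.inr hp
          · rintro ⟨⟨h1, h2⟩, h3⟩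
            refine ⟨⟨h1, h2, ?_⟩, hfb V⟩
            intro hp
            rcases h3 with h3 | h3
            · exact h3
            · exact absurd hp h3
        show f ⁻¹' ({U : UpperSet P | p ∈ U} ∩ (b \ {U | u ∈ U})) ∈ _
        rw [this]
        exact cl_inter (cl_const _) (cl_union (gn_mem _ p) (cl_const _))
    · rintro _ ⟨p, rfl⟩
      have : gn (U \ {x | x ≤ u}) p = {_V | p ∈ U \ {x | x ≤ u}} ∩
          f ⁻¹' ({U : UpperSet P | p ∈ U} ∩ (b \ {U | u ∈ U})) := by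
        ext V
        constructor
        · intro h
          have hp := V.2.1 h
          exact ⟨hp, ⟨hp.1.1, hp.2, fun _ => h⟩, hfb V⟩
        · rintro ⟨h1, ⟨_, _, h2⟩, _⟩
          exact h2 h1
      rw [this]
      exact cl_inter (cl_const _) (cl_base ⟨_, Or.inr ⟨_, ⟨p, rfl⟩, rfl⟩, rfl⟩)
  -- glue
  let fD : UpperSet P → RUS D := fun V =>
    ⟨(V : Set P) ∩ D, fun _ hp => hp.2, fun p hp q hq hpq => ⟨V.upper hpq hp.1, hq⟩⟩
  let fU : UpperSet P → RUS U := fun V =>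
    ⟨(V : Set P) ∩ U, fun _ hp => hp.2, fun p hp q hq hpq => ⟨V.upper hpq hp.1, hq⟩⟩
  have hW := ((hD.pull fD).join (hU.pull fU)).trace b
  apply hbC
  refine hW.congr ?_ ?_
  · rintro _ (rfl | ⟨_, (⟨_, ⟨p, rfl⟩, rfl⟩ | ⟨_, ⟨p, rfl⟩, rfl⟩), rfl⟩)
    · exact cl_base (Or.inl rfl)
    · have : (fD ⁻¹' gn D p) ∩ b = {_V | p ∈ D} ∩ ({U : UpperSet P | p ∈ U} ∩ b) := by
        ext V
        constructor
        · rintro ⟨⟨h1, h2⟩, h3⟩
          exact ⟨h2, h1, h3⟩
        · rintro ⟨h1, h2, h3⟩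
          exact ⟨⟨h2, h1⟩, h3⟩
      show (fD ⁻¹' gn D p) ∩ b ∈ _
      rw [this]
      exact cl_inter (cl_const _) (cl_base (Or.inr ⟨_, ⟨p, rfl⟩, rfl⟩))
    · have : (fU ⁻¹' gn U p) ∩ b = {_V | p ∈ U} ∩ ({U : UpperSet P | p ∈ U} ∩ b) := by
        ext V
        constructor
        · rintro ⟨⟨h1, h2⟩, h3⟩
          exact ⟨h2, h1, h3⟩
        · rintro ⟨h1, h2, h3⟩
          exact ⟨⟨h2, h1⟩, h3⟩
      show (fU ⁻¹' gn U p) ∩ b ∈ _
      rw [this]
      exact cl_inter (cl_const _) (cl_base (Or.inr ⟨_, ⟨p, rfl⟩, rfl⟩))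
  · rintro _ (rfl | ⟨_, ⟨p, rfl⟩, rfl⟩)
    · exact cl_base (Or.inl rfl)
    · show {U : UpperSet P | p ∈ U} ∩ b ∈ _
      by_cases hpU : p ∈ U₀
      · by_cases hpq : ∃ q ∈ Q, q ≤ p
        · obtain ⟨q, hq, hqp⟩ := hpq
          have : {U : UpperSet P | p ∈ U} ∩ b = b := by
            ext V
            constructor
            · intro h; exact h.2
            · intro h; exact ⟨V.upper hqp (h.1 q hq), h⟩
          rw [this]
          exact cl_base (Or.inl rfl)
        · push Not at hpq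
          have hpU' : p ∈ U := ⟨hpU, hpq⟩
          refine cl_base (Or.inr ⟨fU ⁻¹' gn U p, Or.inr ⟨_, ⟨p, rfl⟩, rfl⟩, ?_⟩)
          ext V
          constructor
          · rintro ⟨⟨h1, _⟩, h3⟩
            exact ⟨h1, h3⟩
          · rintro ⟨h1, h3⟩
            exact ⟨⟨h1, hpU'⟩, h3⟩
      · by_cases hpt : ∃ t ∈ T, p ≤ t
        · obtain ⟨t, ht, hpt⟩ := hpt
          have : {U : UpperSet P | p ∈ U} ∩ b = ∅ := by
            ext V
            constructor
            · rintro ⟨h1, h2⟩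
              exact absurd (V.upper hpt h1) (h2.2 t ht)
            · intro h; exact absurd h (Set.notMem_empty V)
          rw [this]
          exact cl_empty
        · push Not at hpt
          have hpD : p ∈ D := ⟨hpU, hpt⟩
          refine cl_base (Or.inr ⟨fD ⁻¹' gn D p, Or.inl ⟨_, ⟨p, rfl⟩, rfl⟩, ?_⟩)
          ext V
          constructor
          · rintro ⟨⟨h1, _⟩, h3⟩
            exact ⟨h1, h3⟩
          · rintro ⟨h1, h3⟩
            exact ⟨⟨h1, hpD⟩, h3⟩

/-- Superatomic poset algebras are well generated. -/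
theorem wellGenerated {P : Type} [PartialOrder P] (hsa : SA P) :
    ∃ G : Set (Set (UpperSet P)), G ⊆ ((F P : BooleanSubalgebra _) : Set (Set (UpperSet P))) ∧
      (∀ x ∈ G, ∀ y ∈ G, x ∪ y ∈ G ∧ x ∩ y ∈ G) ∧
      (¬ ∃ f : ℕ → Set (UpperSet P), ∀ n, f n ∈ G ∧ f (n + 1) ⊂ f n) ∧
      BooleanSubalgebra.closure G = F P := by
  obtain ⟨H, hN, ha, hb⟩ := wg_of_sa hsa
  have hLC : ∀ x, LC H x → x ∈ F P := fun x hx => cl_le ha x (lc_cl hx)
  refine ⟨{x | LC H x}, fun x hx => hLC x hx, fun x hx y hy => ⟨.union x y hx hy, .inter x y hx hy⟩,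
    lc_wf hN, ?_⟩
  apply le_antisymm
  · rw [BooleanSubalgebra.closure_le]
    intro x hx
    exact hLC x hx
  · rw [BooleanSubalgebra.closure_le]
    rintro _ ⟨p, rfl⟩
    exact cl_le (fun e he => cl_base (LC.base e he)) _ (hb _ ⟨p, rfl⟩)

end Pool.Agent.H197WG
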