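import Pool.Agent.Helper197.WellGen.Basic
import Pool.Agent.Helper626.PosetAlg.Main

/-!
# Well generated poset algebras
-/

set_option autoImplicit false

namespace Pool.Agent.H197WG

open Set Pool.Agent.Helper626.PosetAlg

/-- the relative upper subsets of `S` -/
abbrev RUS {P : Type} [Preorder P] (S : Set P) : Type := {V : Set P // RU S V}

/-- the generator of `p` -/
def gn {P : Type} [Preorder P] (S : Set P) (p : P) : Set (RUS S) := {V | p ∈ V.1}

/-- the generators -/
def gens {P : Type} [Preorder P] (S : Set P) : Set (Set (RUS S)) := Set.range (gn S)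

theorem gn_mem {P : Type} [Preorder P] (S : Set P) (p : P) : gn S p ∈ cl (gens S) :=
  cl_base ⟨p, rfl⟩

/-- cut down to `Q` -/
def cutQ {P : Type} [Preorder P] {S Q : Set P} (hQS : Q ⊆ S) (V : RUS S) : RUS Q :=
  ⟨V.1 ∩ Q, fun _ hp => hp.2, fun p hp q hq hpq => ⟨V.2.2 p hp.1 q (hQS hq) hpq, hq⟩⟩

/-- The key gluing theorem. -/
theorem caseW {P : Type} [PartialOrder P] (hP : FAC P) (S : Set P)
    (hS : ∀ q ∈ S, WG (gens (S \ {x | q ≤ x}))) : WG (gens S) := by
  classical
  obtain ⟨C, hCS, hCw, hCwqo⟩ := greedy hP S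
  let Q : C → Set P := fun l => {p | p ∈ S ∧ p < l ∧ ∀ c ∈ C, c < (l : P) → c ≤ p}
  have hQS : ∀ l, Q l ⊆ S := fun l p hp => hp.1
  have hQ : ∀ l : C, WG (gens (Q l)) := by
    intro l
    have h0 := hS l (hCS l.2)
    let f : RUS (Q l) → RUS (S \ {x | (l : P) ≤ x}) := fun V =>
      ⟨{p | p ∈ V.1 ∨ (p ∈ S ∧ ¬ (l : P) ≤ p ∧ ¬ p ≤ l)}, by
        constructor
        · rintro p (hp | ⟨h1, h2, _⟩)
          · have := V.2.1 hp
            exact ⟨this.1, fun h => absurd this.2.1 (not_lt_of_ge h)⟩
          · exact ⟨h1, h2⟩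
        · rintro p hp q hq hpq
          rcases hp with hp | ⟨h1, h2, h3⟩
          · have hpQ := V.2.1 hp
            by_cases hql : q ≤ l
            · left
              refine V.2.2 p hp q ⟨hq.1, lt_of_le_of_ne hql ?_, ?_⟩ hpq
              · rintro rfl
                exact hq.2 le_rfl
              · intro c hc hcl
                exact (hpQ.2.2 c hc hcl).trans hpq
            · right
              exact ⟨hq.1, hq.2, hql⟩
          · right
            exact ⟨hq.1, hq.2, fun h => h3 (hpq.trans h)⟩⟩
    refine (h0.pull f).congr ?_ ?_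
    · rintro _ ⟨_, ⟨p, rfl⟩, rfl⟩
      by_cases hp : p ∈ S ∧ ¬ (l : P) ≤ p ∧ ¬ p ≤ l
      · have : f ⁻¹' gn _ p = Set.univ := by
          ext V
          constructor
          · intro _; trivial
          · intro _; exact Or.inr hp
        rw [this]
        exact cl_univ
      · have : f ⁻¹' gn _ p = gn _ p := by
          ext V
          constructor
          · rintro (h | h)
            · exact h
            · exact absurd h hp
          · intro h; exact Or.inl h
        rw [this]
        exact gn_mem _ p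
    · rintro _ ⟨p, rfl⟩
      by_cases hp : p ∈ S ∧ ¬ (l : P) ≤ p ∧ ¬ p ≤ l
      · have : gn (Q l) p = ∅ := by
          ext V
          constructor
          · intro h
            have hpQ := V.2.1 h
            exact absurd hpQ.2.1.le hp.2.2
          · intro h; exact absurd h (Set.notMem_empty V)
        rw [this]
        exact cl_empty
      · have : f ⁻¹' gn _ p = gn (Q l) p := by
          ext V
          constructor
          · rintro (h | h)
            · exact h
            · exact absurd h hp
          · intro h; exact Or.inl h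
        refine cl_base ⟨gn _ p, ⟨p, rfl⟩, this⟩
  choose H hN ha hb using hQ
  let cut : ∀ l : C, RUS S → RUS (Q l) := fun l => cutQ (hQS l)
  let Hb : C → Set (Set (RUS S)) := fun l =>
    {t | ∃ g ∈ insert Set.univ (H l), t = {V | V ∈ gn S l ∧ cut l V ∈ g}}
  have hHb : ∀ l, Noeth (Hb l) := fun l => noeth_cut (cut l) (gn S l) (noeth_insert _ (hN l))
  have hfull : ∀ (l₀ l : C), (l₀ : P) < l → ∀ V : RUS S, (l₀ : P) ∈ V.1 →
      V ∈ gn S l ∧ (cut l V).1 = Q l := by
    intro l₀ l hlt V hV
    refine ⟨V.2.2 _ hV _ (hCS l.2) hlt.le, ?_⟩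
    apply Set.Subset.antisymm
    · exact fun p hp => hp.2
    · intro p hp
      exact ⟨V.2.2 _ hV _ hp.1 (hp.2.2 _ l₀.2 hlt), hp⟩
  refine ⟨{t | ∃ l, t ∈ Hb l}, ?_, ?_, ?_⟩
  · intro h hh
    choose l hl using hh
    have : IsPreorder C (fun a b : C => (a : P) ≤ b) :=
      { refl := fun a => le_refl (a : P), trans := fun a b c => le_trans }
    obtain ⟨φ, hφ⟩ := hCwqo.exists_monotone_subseq l
    by_cases hst : ∃ m n, m < n ∧ ((l (φ m)) : P) < l (φ n)
    · obtain ⟨m, n, hmn, hlt⟩ := hst
      obtain ⟨g, hg, hgt⟩ := hl (φ n)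
      have hlt' : φ m < φ n := φ.strictMono hmn
      have hmem : ∀ V : RUS S, V ∈ h (φ m) → ((l (φ m)) : P) ∈ V.1 := by
        intro V hV
        obtain ⟨g', _, hgt'⟩ := hl (φ m)
        rw [hgt'] at hV
        exact hV.1
      by_cases hfg : ∃ V₀ ∈ g, V₀.1 = Q (l (φ n))
      · obtain ⟨V₀, hV₀, hV₀Q⟩ := hfg
        obtain ⟨k, hk⟩ : ∃ k, φ n = k + 1 := ⟨φ n - 1, by omega⟩
        refine ⟨k, fun V hV => ?_⟩
        rw [← hk, hgt]
        have h1 := hfull _ _ hlt V (hmem V (hV _ (by omega)))
        refine ⟨h1.1, ?_⟩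
        have h2 : cut (l (φ n)) V = V₀ := Subtype.ext (h1.2.trans hV₀Q.symm)
        rw [h2]
        exact hV₀
      · refine ⟨φ n, fun V hV => ?_⟩
        exfalso
        have h1 := hfull _ _ hlt V (hmem V (hV _ hlt'.le))
        have h2 := hV (φ n) le_rfl
        rw [hgt] at h2
        exact hfg ⟨_, h2.2, h1.2⟩
    · push Not at hst
      have heq : ∀ n, l (φ n) = l (φ 0) := by
        intro n
        rcases Nat.eq_zero_or_pos n with rfl | hn
        · rfl
        · have h1 : ((l (φ 0)) : P) ≤ l (φ n) := hφ 0 n (Nat.zero_le n)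
          have h2 := hst 0 n hn
          apply Subtype.ext
          by_contra hne
          exact h2 (lt_of_le_of_ne h1 (fun h => hne h.symm))
      obtain ⟨N, hN'⟩ := hHb (l (φ 0)) (fun n => h (φ n)) (fun n => by
        have := hl (φ n)
        rwa [heq n] at this)
      exact noeth_of_sub h φ φ.strictMono N hN'
  · rintro _ ⟨l, g, hg, rfl⟩
    have h1 : cut l ⁻¹' g ∈ cl (gens S) := by
      have h2 : g ∈ cl (gens (Q l)) := by
        rcases hg with rfl | hg
        · exact cl_univ
        · exact ha l g hg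
      refine cl_le ?_ _ (cl_preimage (cut l) h2)
      rintro _ ⟨_, ⟨p, rfl⟩, rfl⟩
      by_cases hp : p ∈ Q l
      · have : cut l ⁻¹' gn (Q l) p = gn S p := by
          ext V
          constructor
          · intro h; exact h.1
          · intro h; exact ⟨h, hp⟩
        rw [this]
        exact gn_mem S p
      · have : cut l ⁻¹' gn (Q l) p = ∅ := by
          ext V
          constructor
          · intro h; exact absurd h.2 hp
          · intro h; exact absurd h (Set.notMem_empty V)
        rw [this]
        exact cl_empty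
    exact cl_inter (gn_mem S l) h1
  · rintro _ ⟨p, rfl⟩
    have hgl : ∀ l : C, gn S l ∈ cl {t | ∃ l, t ∈ Hb l} := by
      intro l
      refine cl_base ⟨l, Set.univ, Or.inl rfl, ?_⟩
      ext V
      constructor
      · intro h; exact ⟨h, trivial⟩
      · intro h; exact h.1
    by_cases hpS : p ∈ S
    · obtain ⟨c, hc, hpc, hcw⟩ := hCw p hpS
      by_cases hpe : p = c
      · subst hpe
        exact hgl ⟨p, hc⟩
      · have hpQ : p ∈ Q ⟨c, hc⟩ := ⟨hpS, lt_of_le_of_ne hpc hpe, hcw⟩
        -- every set of the algebra of `Q l` is cut out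
        have key : ∀ z ∈ cl (H ⟨c, hc⟩), gn S c ∩ cut ⟨c, hc⟩ ⁻¹' z ∈ cl {t | ∃ l, t ∈ Hb l} := by
          intro z hz
          induction hz using BooleanSubalgebra.closure_bot_sup_induction with
          | mem x hx => exact cl_base ⟨⟨c, hc⟩, x, Or.inr hx, rfl⟩
          | bot =>
            have : gn S c ∩ cut ⟨c, hc⟩ ⁻¹' (⊥ : Set (RUS (Q ⟨c, hc⟩))) = ∅ := by
              ext V
              constructor
              · intro h; exact absurd h.2 (Set.notMem_empty _)
              · intro h; exact absurd h (Set.notMem_empty V)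
            rw [this]
            exact cl_empty
          | sup x _ y _ ihx ihy =>
            have : gn S c ∩ cut ⟨c, hc⟩ ⁻¹' (x ⊔ y) =
                (gn S c ∩ cut ⟨c, hc⟩ ⁻¹' x) ∪ (gn S c ∩ cut ⟨c, hc⟩ ⁻¹' y) := by
              ext V
              constructor
              · rintro ⟨h1, h2 | h2⟩
                · exact Or.inl ⟨h1, h2⟩
                · exact Or.inr ⟨h1, h2⟩
              · rintro (⟨h1, h2⟩ | ⟨h1, h2⟩)
                · exact ⟨h1, Or.inl h2⟩
                · exact ⟨h1, Or.inr h2⟩
            rw [this]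
            exact cl_union ihx ihy
          | compl x _ ih =>
            have : gn S c ∩ cut ⟨c, hc⟩ ⁻¹' xᶜ =
                gn S c \ (gn S c ∩ cut ⟨c, hc⟩ ⁻¹' x) := by
              ext V
              constructor
              · rintro ⟨h1, h2⟩
                exact ⟨h1, fun h => h2 h.2⟩
              · rintro ⟨h1, h2⟩
                exact ⟨h1, fun h => h2 ⟨h1, h⟩⟩
            rw [this]
            exact cl_diff (hgl ⟨c, hc⟩) ih
        have h1 := key _ (hb ⟨c, hc⟩ _ ⟨p, rfl⟩)
        have h2 : gn S c ∩ cut ⟨c, hc⟩ ⁻¹' gn (Q ⟨c, hc⟩) p = gn S p := by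
          ext V
          constructor
          · intro h; exact h.2.1
          · intro h
            exact ⟨V.2.2 p h c (hCS hc) hpc, h, hpQ⟩
        rw [h2] at h1
        exact h1
    · have : gn S p = ∅ := by
        ext V
        constructor
        · intro h; exact absurd (V.2.1 h) hpS
        · intro h; exact absurd h (Set.notMem_empty V)
      rw [this]
      exact cl_empty

end Pool.Agent.H197WG
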